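import Mathlib

set_option autoImplicit false

/-!
# A counting criterion for the rank property of subgroups of `GL(n, q)`

Let `G ≤ GL(n, q)`. If `(q ^ r - 1) (q ^ (n - r) - 1) < (q - 1) |G v|` for all nonzero vectors `v`
and all `0 < r < n`, then `G` has the rank property. So every subgroup that permutes the points of
the projective space transitively has it, and so does a cyclic subgroup of `SL(n, q)` of order
`(q ^ n - 1) / (q - 1)`.
-/

namespace Pool.Agent.Results.MP_6598fd_al.OrbitCriterion

open Matrix Module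

universe u

/-- the rank property of a subgroup `G` of `GL(n, F)`: for every singular matrix `a` there is
`g` in `G` such that `a g a` and `a` have the same rank -/
def RankProperty {F : Type u} [Field F] {n : ℕ} (G : Subgroup (GL (Fin n) F)) : Prop :=
  ∀ a : Matrix (Fin n) (Fin n) F, a.det = 0 →
    ∃ g ∈ G, (a * (g : Matrix (Fin n) (Fin n) F) * a).rank = a.rank

/-- the orbit of the vector `v` under the subgroup `G` of `GL(n, F)` -/
def orb {F : Type u} [Field F] {n : ℕ} (G : Subgroup (GL (Fin n) F)) (v : Fin n → F) :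
    Set (Fin n → F) :=
  {w | ∃ g ∈ G, (g : Matrix (Fin n) (Fin n) F) *ᵥ v = w}

section Action

variable {F : Type u} [Field F] {n : ℕ}

/-- action on vectors -/
def act (g : GL (Fin n) F) (v : Fin n → F) : Fin n → F := (g : Matrix (Fin n) (Fin n) F) *ᵥ v

lemma act_mul (g h : GL (Fin n) F) (v : Fin n → F) : act (g * h) v = act g (act h v) := by
  simp [act, Matrix.mulVec_mulVec]

lemma act_one (v : Fin n → F) : act (1 : GL (Fin n) F) v = v := by
  simp [act]

lemma act_inv_act (g : GL (Fin n) F) (v : Fin n → F) : act g⁻¹ (act g v) = v := by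
  rw [← act_mul, inv_mul_cancel, act_one]

lemma act_eq_iff (g : GL (Fin n) F) (v w : Fin n → F) : act g v = w ↔ v = act g⁻¹ w := by
  constructor
  · rintro rfl
    rw [act_inv_act]
  · rintro rfl
    rw [← act_mul, mul_inv_cancel, act_one]

lemma act_zero (g : GL (Fin n) F) : act g 0 = 0 := by simp [act]

lemma act_smul (g : GL (Fin n) F) (c : F) (v : Fin n → F) : act g (c • v) = c • act g v := by
  simp [act, Matrix.mulVec_smul]

lemma act_ne_zero (g : GL (Fin n) F) {v : Fin n → F} (hv : v ≠ 0) : act g v ≠ 0 := by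
  intro h
  rw [act_eq_iff, act_zero] at h
  exact hv h

end Action

section Count

variable {F : Type u} [Field F] [Finite F] {n : ℕ} (G : Subgroup (GL (Fin n) F))

instance : Finite (GL (Fin n) F) := by
  have : Finite (Matrix (Fin n) (Fin n) F) := by unfold Matrix; infer_instance
  infer_instance

/-- an orbit-stabilizer count -/
lemma count (u : Fin n → F) (W : Set (Fin n → F)) :
    Nat.card {g : G // act g.1 u ∈ W} * Nat.card (orb G u) ≤ Nat.card W * Nat.card G := by
  classical
  have hch : ∀ x : orb G u, ∃ g : G, act g.1 u = x.1 := by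
    rintro ⟨x, g, hg, hx⟩
    exact ⟨⟨g, hg⟩, hx⟩
  choose h hh using hch
  have hmem : ∀ g : G, act g.1 u ∈ orb G u := fun g => ⟨g.1, g.2, rfl⟩
  let f : {g : G // act g.1 u ∈ W} × orb G u → W × G := fun p =>
    (⟨act p.1.1.1 u, p.1.2⟩, h p.2 * (h ⟨act p.1.1.1 u, hmem p.1.1⟩)⁻¹ * p.1.1)
  have hf : Function.Injective f := by
    rintro ⟨⟨g, hg⟩, x⟩ ⟨⟨g', hg'⟩, x'⟩ heq
    have h1 : act g.1 u = act g'.1 u := congrArg (fun z => (z.1 : Fin n → F)) heq
    have h2 : h x * (h ⟨act g.1 u, hmem g⟩)⁻¹ * g = h x' * (h ⟨act g'.1 u, hmem g'⟩)⁻¹ * g' :=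
      congrArg (fun z => z.2) heq
    have key : ∀ (y : orb G u) (k : G),
        act (h y * (h ⟨act k.1 u, hmem k⟩)⁻¹ * k).1 u = y.1 := by
      intro y k
      have e : act ((h ⟨act k.1 u, hmem k⟩)⁻¹ : G).1 (act k.1 u) = u := by
        have e1 := hh ⟨act k.1 u, hmem k⟩
        have e2 : act ((h ⟨act k.1 u, hmem k⟩)⁻¹ : G).1 (act (h ⟨act k.1 u, hmem k⟩).1 u) = u := by
          rw [Subgroup.coe_inv, act_inv_act]
        rwa [e1] at e2
      rw [Subgroup.coe_mul, Subgroup.coe_mul, act_mul, act_mul, e, hh]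
    have h3 : x = x' := by
      apply Subtype.ext
      rw [← key x g, ← key x' g', h2]
    subst h3
    have h4 : (⟨act g.1 u, hmem g⟩ : orb G u) = ⟨act g'.1 u, hmem g'⟩ := Subtype.ext h1
    rw [h4] at h2
    have h5 : g = g' := mul_left_cancel h2
    subst h5
    rfl
  have : Finite (Fin n → F) := inferInstance
  have hle := Nat.card_le_card_of_injective f hf
  rwa [Nat.card_prod, Nat.card_prod] at hle

/-- the counting argument -/
theorem exists_good (U W : Submodule F (Fin n → F)) (hU : U ≠ ⊥)
    (hG : ∀ v : Fin n → F, v ≠ 0 →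
      (Nat.card U - 1) * (Nat.card W - 1) < (Nat.card F - 1) * Nat.card (orb G v)) :
    ∃ g ∈ G, ∀ v ∈ U, act g v ∈ W → v = 0 := by
  classical
  by_contra hcon
  push Not at hcon
  choose! i hi hk hne using hcon
  let Us := {y : U // y ≠ 0}
  let Ws : Set (Fin n → F) := {w | w ∈ W ∧ w ≠ 0}
  have hUc : Nat.card Us = Nat.card U - 1 := by
    have h1 := Finite.card_option (α := {y : U // y ≠ 0})
    have h2 : Nat.card (Option {y : U // y ≠ 0}) = Nat.card U :=
      Nat.card_congr (Equiv.optionSubtypeNe (0 : U))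
    show Nat.card {y : U // y ≠ 0} = _
    omega
  have hWc : Nat.card Ws = Nat.card W - 1 := by
    have h1 := Finite.card_option (α := {y : W // y ≠ 0})
    have h2 : Nat.card (Option {y : W // y ≠ 0}) = Nat.card W :=
      Nat.card_congr (Equiv.optionSubtypeNe (0 : W))
    have h3 : Nat.card Ws = Nat.card {y : W // y ≠ 0} := by
      apply Nat.card_congr
      exact
        { toFun := fun w => ⟨⟨w.1, w.2.1⟩, fun h => w.2.2 (congrArg Subtype.val h)⟩
          invFun := fun w => ⟨w.1.1, w.1.2, fun h => w.2 (Subtype.ext h)⟩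
          left_inv := fun _ => rfl
          right_inv := fun _ => rfl }
    omega
  -- incidences
  let P := Σ v : Us, {g : G // act g.1 v.1.1 ∈ Ws}
  have hP1 : Nat.card (G × Fˣ) ≤ Nat.card P := by
    let f : G × Fˣ → P := fun p =>
      ⟨⟨⟨(p.2 : F) • i p.1.1, U.smul_mem _ (hi p.1.1 p.1.2)⟩, by
          intro h
          have h' : (p.2 : F) • i p.1.1 = 0 := congrArg Subtype.val h
          rcases smul_eq_zero.mp h' with h1 | h1
          · exact p.2.ne_zero h1
          · exact hne p.1.1 p.1.2 h1⟩,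
        ⟨p.1, by
          refine ⟨?_, ?_⟩
          · show act p.1.1 ((p.2 : F) • i p.1.1) ∈ W
            rw [act_smul]
            exact W.smul_mem _ (hk p.1.1 p.1.2)
          · show act p.1.1 ((p.2 : F) • i p.1.1) ≠ 0
            apply act_ne_zero
            intro h'
            rcases smul_eq_zero.mp h' with h1 | h1
            · exact p.2.ne_zero h1
            · exact hne p.1.1 p.1.2 h1⟩⟩
    apply Nat.card_le_card_of_injective f
    rintro ⟨g, c⟩ ⟨g', c'⟩ heq
    have h1 : g = g' := congrArg (fun z : P => z.2.1) heq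
    subst h1
    have h2 : (c : F) • i g.1 = (c' : F) • i g.1 := congrArg (fun z : P => (z.1.1.1 : Fin n → F)) heq
    have h3 : ((c : F) - c') • i g.1 = 0 := by rw [sub_smul, h2, sub_self]
    rcases smul_eq_zero.mp h3 with h4 | h4
    · rw [Units.ext (sub_eq_zero.mp h4)]
    · exact absurd h4 (hne g.1 g.2)
  have : Fintype Us := Fintype.ofFinite Us
  have hP2 : Nat.card P = ∑ v : Us, Nat.card {g : G // act g.1 v.1.1 ∈ Ws} := Nat.card_sigma
  have hGpos : 0 < Nat.card G := Nat.card_pos
  have hF : 0 < Nat.card F - 1 := by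
    have : 1 < Nat.card F := Finite.one_lt_card
    omega
  have hUpos : 0 < Nat.card Us := by
    obtain ⟨y, hy, hy0⟩ := Submodule.exists_mem_ne_zero_of_ne_bot hU
    have : Nonempty Us := ⟨⟨⟨y, hy⟩, fun h => hy0 (congrArg Subtype.val h)⟩⟩
    exact Nat.card_pos
  have hterm : ∀ v : Us, Nat.card {g : G // act g.1 v.1.1 ∈ Ws} * Nat.card Us <
      (Nat.card F - 1) * Nat.card G := by
    intro v
    have hv : v.1.1 ≠ 0 := fun h => v.2 (Subtype.ext h)
    have h1 := count G v.1.1 Ws
    have h2 := hG v.1.1 hv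
    rw [← hUc, ← hWc] at h2
    set c := Nat.card {g : G // act g.1 v.1.1 ∈ Ws}
    rcases Nat.eq_zero_or_pos c with h0 | h0
    · rw [h0, zero_mul]
      positivity
    · by_contra hge
      push Not at hge
      have hW0 : 0 < Nat.card Ws := by
        have : Nonempty {g : G // act g.1 v.1.1 ∈ Ws} := by
          by_contra hempty
          rw [not_nonempty_iff] at hempty
          have : c = 0 := Nat.card_of_isEmpty
          omega
        obtain ⟨g, hg⟩ := this
        have : Nonempty Ws := ⟨⟨_, hg⟩⟩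
        exact Nat.card_pos
      have e1 : c * (Nat.card Us * Nat.card Ws) < c * ((Nat.card F - 1) * Nat.card (orb G v.1.1)) :=
        Nat.mul_lt_mul_of_pos_left h2 h0
      have e2 : (Nat.card F - 1) * (c * Nat.card (orb G v.1.1)) ≤
          (Nat.card F - 1) * (Nat.card Ws * Nat.card G) := Nat.mul_le_mul_left _ h1
      have e3 : Nat.card Ws * ((Nat.card F - 1) * Nat.card G) ≤ Nat.card Ws * (c * Nat.card Us) :=
        Nat.mul_le_mul_left _ hge
      nlinarith
  have hsum : Nat.card P * Nat.card Us < Nat.card Us * ((Nat.card F - 1) * Nat.card G) := by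
    rw [hP2, Finset.sum_mul]
    have : Nonempty Us := by
      by_contra hempty
      rw [not_nonempty_iff] at hempty
      have : Nat.card Us = 0 := Nat.card_of_isEmpty
      omega
    calc ∑ v : Us, Nat.card {g : G // act g.1 v.1.1 ∈ Ws} * Nat.card Us
        < ∑ v : Us, (Nat.card F - 1) * Nat.card G :=
          Finset.sum_lt_sum_of_nonempty Finset.univ_nonempty (fun v _ => hterm v)
      _ = Nat.card Us * ((Nat.card F - 1) * Nat.card G) := by
          rw [Finset.sum_const, Finset.card_univ, smul_eq_mul, Nat.card_eq_fintype_card (α := Us)]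
  have hlast : Nat.card P < (Nat.card F - 1) * Nat.card G := by
    by_contra hge
    push Not at hge
    have := Nat.mul_le_mul_left (Nat.card Us) hge
    nlinarith
  rw [Nat.card_prod, Nat.card_units] at hP1
  nlinarith

/-- the criterion -/
theorem criterion
    (hG : ∀ v : Fin n → F, v ≠ 0 → ∀ r : ℕ, 0 < r → r < n →
      (Nat.card F ^ r - 1) * (Nat.card F ^ (n - r) - 1) < (Nat.card F - 1) * Nat.card (orb G v)) :
    RankProperty G := by
  intro a ha
  rcases eq_or_ne a 0 with rfl | ha0
  · exact ⟨1, G.one_mem, by simp⟩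
  set A : (Fin n → F) →ₗ[F] (Fin n → F) := a.mulVecLin with hA
  have hAker : LinearMap.ker A ≠ ⊥ := by
    intro h
    rw [LinearMap.ker_eq_bot'] at h
    obtain ⟨v, hv, hv0⟩ := Matrix.exists_mulVec_eq_zero_iff.mpr ha
    exact hv (h v hv0)
  have hArange : LinearMap.range A ≠ ⊥ := by
    intro h
    rw [LinearMap.range_eq_bot] at h
    apply ha0
    apply Matrix.toLin'.map_eq_zero_iff.mp
    rw [Matrix.toLin'_apply']
    exact h
  have hsum : finrank F (LinearMap.range A) + finrank F (LinearMap.ker A) = n := by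
    have := LinearMap.finrank_range_add_finrank_ker A
    rwa [Module.finrank_fin_fun] at this
  have hr0 : 0 < finrank F (LinearMap.range A) := by
    rw [Module.finrank_pos_iff, Submodule.nontrivial_iff_ne_bot]
    exact hArange
  have hk0 : 0 < finrank F (LinearMap.ker A) := by
    rw [Module.finrank_pos_iff, Submodule.nontrivial_iff_ne_bot]
    exact hAker
  obtain ⟨g, hg, hgood⟩ := exists_good G (LinearMap.range A) (LinearMap.ker A) hArange (by
    intro v hv
    have h1 := hG v hv (finrank F (LinearMap.range A)) hr0 (by omega)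
    rw [Module.natCard_eq_pow_finrank (K := F) (V := LinearMap.range A),
      Module.natCard_eq_pow_finrank (K := F) (V := LinearMap.ker A)]
    rwa [show n - finrank F (LinearMap.range A) = finrank F (LinearMap.ker A) by omega] at h1)
  refine ⟨g, hg, ?_⟩
  show finrank F (LinearMap.range (a * (g : Matrix (Fin n) (Fin n) F) * a).mulVecLin) =
    finrank F (LinearMap.range a.mulVecLin)
  rw [Matrix.mulVecLin_mul, Matrix.mulVecLin_mul, ← hA, LinearMap.range_comp,
    ← LinearMap.range_domRestrict]
  apply LinearMap.finrank_range_of_inj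
  rw [← LinearMap.ker_eq_bot, LinearMap.ker_eq_bot']
  rintro ⟨i, hi⟩ h
  apply Subtype.ext
  apply hgood i hi
  simpa [act] using h

/-- the product estimate -/
lemma prod_lt (n r : ℕ) (hr : 0 < r) (hrn : r < n) {q : ℕ} (hq : 2 ≤ q) :
    (q ^ r - 1) * (q ^ (n - r) - 1) < q ^ n - 1 := by
  have h1 : q ^ n = q ^ r * q ^ (n - r) := by
    rw [← pow_add]
    congr 1
    omega
  have h2 : 2 ≤ q ^ r := by
    calc 2 ≤ q := hq
      _ = q ^ 1 := (pow_one q).symm
      _ ≤ q ^ r := Nat.pow_le_pow_right (by omega) hr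
  have h3 : 2 ≤ q ^ (n - r) := by
    calc 2 ≤ q := hq
      _ = q ^ 1 := (pow_one q).symm
      _ ≤ q ^ (n - r) := Nat.pow_le_pow_right (by omega) (by omega)
  rw [h1]
  obtain ⟨x, hx⟩ : ∃ x, q ^ r = x + 2 := ⟨q ^ r - 2, by omega⟩
  obtain ⟨y, hy⟩ : ∃ y, q ^ (n - r) = y + 2 := ⟨q ^ (n - r) - 2, by omega⟩
  rw [hx, hy]
  have e1 : x + 2 - 1 = x + 1 := by omega
  have e2 : y + 2 - 1 = y + 1 := by omega
  have e3 : (x + 2) * (y + 2) = (x + 1) * (y + 1) + (x + y + 3) := by ring
  rw [e1, e2, e3]
  omega

theorem criterion' (hG : ∀ v : Fin n → F, v ≠ 0 →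
      Nat.card F ^ n - 1 ≤ (Nat.card F - 1) * Nat.card (orb G v)) :
    RankProperty G := by
  apply criterion
  intro v hv r hr hrn
  have hq : 2 ≤ Nat.card F := Finite.one_lt_card
  exact lt_of_lt_of_le (prod_lt n r hr hrn hq) (hG v hv)

theorem transitive_rank (hG : ∀ v w : Fin n → F, v ≠ 0 → w ≠ 0 →
      ∃ g ∈ G, ∃ c : F, (g : Matrix (Fin n) (Fin n) F) *ᵥ v = c • w) :
    RankProperty G := by
  classical
  apply criterion'
  intro v hv
  have hch : ∀ w : {w : Fin n → F // w ≠ 0}, ∃ g : G, ∃ c : Fˣ,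
      act g.1 v = (c : F) • w.1 := by
    rintro ⟨w, hw⟩
    obtain ⟨g, hg, c, hc⟩ := hG v w hv hw
    have hc0 : c ≠ 0 := by
      rintro rfl
      rw [zero_smul] at hc
      exact act_ne_zero g hv hc
    exact ⟨⟨g, hg⟩, Units.mk0 c hc0, hc⟩
  choose g c hgc using hch
  let f : {w : Fin n → F // w ≠ 0} → Fˣ × orb G v := fun w =>
    (c w, ⟨act (g w).1 v, (g w).1, (g w).2, rfl⟩)
  have hf : Function.Injective f := by
    intro w w' h
    have h1 : c w = c w' := congrArg (fun z => z.1) h
    have h2 : act (g w).1 v = act (g w').1 v := congrArg (fun z => (z.2 : Fin n → F)) h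
    rw [hgc, hgc, h1] at h2
    apply Subtype.ext
    exact (smul_right_injective (Fin n → F) (c w').ne_zero) h2
  have hle := Nat.card_le_card_of_injective f hf
  rw [Nat.card_prod, Nat.card_units] at hle
  have h1 := Finite.card_option (α := {w : Fin n → F // w ≠ 0})
  have h2 : Nat.card (Option {w : Fin n → F // w ≠ 0}) = Nat.card (Fin n → F) :=
    Nat.card_congr (Equiv.optionSubtypeNe (0 : Fin n → F))
  have h3 : Nat.card (Fin n → F) = Nat.card F ^ n := by
    rw [Nat.card_fun, Nat.card_eq_fintype_card (α := Fin n), Fintype.card_fin]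
  omega

end Count

section Singer

variable {F : Type u} [Field F] [Finite F] {K : Type} [Field K] [Finite K] [Algebra F K] {n : ℕ}
  (b : Basis (Fin n) F K)

/-- the homomorphism from the multiplicative group of `K` to `GL(n, F)` -/
noncomputable def sing : Kˣ →* GL (Fin n) F :=
  Units.map (Algebra.leftMulMatrix b : K →* Matrix (Fin n) (Fin n) F)

omit [Finite F] [Finite K] in
theorem sing_inj : Function.Injective (sing b) :=
  Units.map_injective (Algebra.leftMulMatrix_injective b)

omit [Finite F] [Finite K] in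
theorem sing_coe (x : Kˣ) :
    ((sing b x : GL (Fin n) F) : Matrix (Fin n) (Fin n) F) = Algebra.leftMulMatrix b (x : K) := rfl

omit [Finite F] [Finite K] in
theorem act_sing (x : Kˣ) (y : K) :
    act (sing b x) (b.repr y) = b.repr ((x : K) * y) := by
  rw [act, sing_coe]
  exact Algebra.leftMulMatrix_mulVec_repr b (x : K) y

omit [Finite F] [Finite K] in
theorem sing_free (x x' : Kˣ) {v : Fin n → F} (hv : v ≠ 0)
    (h : act (sing b x) v = act (sing b x') v) : x = x' := by
  set y : K := b.equivFun.symm v with hy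
  have e : v = b.repr y := by
    rw [hy]
    ext i
    have := congrFun (b.equivFun.apply_symm_apply v) i
    rw [← this]
    rfl
  have hy0 : y ≠ 0 := by
    intro h0
    apply hv
    rw [e, h0]
    simp
  rw [e, act_sing, act_sing] at h
  have h2 : (x : K) * y = x' * y := b.repr.injective (Finsupp.ext fun i => congrFun h i)
  exact Units.ext (mul_right_cancel₀ hy0 h2)

end Singer

/-- for `n ≥ 2` a commutative subgroup does not contain the special linear group -/
theorem not_sl {F : Type u} [Field F] {n : ℕ} (hn : 2 ≤ n) (G : Subgroup (GL (Fin n) F))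
    (hG : ∀ g ∈ G, ∀ h ∈ G, g * h = h * g) :
    ¬ ∀ g : GL (Fin n) F, Matrix.det (g : Matrix (Fin n) (Fin n) F) = 1 → g ∈ G := by
  intro h
  let i0 : Fin n := ⟨0, by omega⟩
  let i1 : Fin n := ⟨1, by omega⟩
  have hne : i0 ≠ i1 := by simp [i0, i1]
  have d1 : (transvection i0 i1 (1 : F)).det = 1 := det_transvection_of_ne i0 i1 hne 1
  have d2 : (transvection i1 i0 (1 : F)).det = 1 := det_transvection_of_ne i1 i0 hne.symm 1
  let g1 : GL (Fin n) F := Matrix.GeneralLinearGroup.mkOfDetNeZero (transvection i0 i1 (1 : F))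
    (by rw [d1]; exact one_ne_zero)
  let g2 : GL (Fin n) F := Matrix.GeneralLinearGroup.mkOfDetNeZero (transvection i1 i0 (1 : F))
    (by rw [d2]; exact one_ne_zero)
  have h1 := hG g1 (h g1 d1) g2 (h g2 d2)
  have h2 : transvection i0 i1 (1 : F) * transvection i1 i0 (1 : F) =
      transvection i1 i0 (1 : F) * transvection i0 i1 (1 : F) :=
    congrArg (fun g : GL (Fin n) F => (g : Matrix (Fin n) (Fin n) F)) h1
  have h3 := congrFun (congrFun h2 i0) i0
  rw [transvection_mul_apply_same, transvection_mul_apply_of_ne _ _ _ _ hne] at h3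
  simp [transvection, hne.symm] at h3

/-- a cyclic subgroup of `SL(n, q)` of order `(q ^ n - 1) / (q - 1)` with the rank property -/
theorem cyclic_example (F : Type u) [Field F] [Finite F] (n : ℕ) (hn : 2 ≤ n) :
    ∃ G : Subgroup (GL (Fin n) F), RankProperty G ∧ IsCyclic G ∧
      Nat.card G = (Nat.card F ^ n - 1) / (Nat.card F - 1) ∧
      (∀ g ∈ G, Matrix.det (g : Matrix (Fin n) (Fin n) F) = 1) ∧
      ¬ ∀ g : GL (Fin n) F, Matrix.det (g : Matrix (Fin n) (Fin n) F) = 1 → g ∈ G := by
  obtain ⟨p, hp⟩ := CharP.exists F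
  have : Fact p.Prime := ⟨CharP.char_is_prime F p⟩
  have : NeZero n := ⟨by omega⟩
  let K := FiniteField.Extension F p n
  have hfin : finrank F K = n := FiniteField.finrank_extension F p n
  let b : Basis (Fin n) F K := Module.finBasisOfFinrankEq F K hfin
  have : Fintype K := Fintype.ofFinite K
  have : Fintype F := Fintype.ofFinite F
  obtain ⟨z, hz⟩ := IsCyclic.exists_generator (α := Kˣ)
  have hzord : orderOf z = Nat.card F ^ n - 1 := by
    rw [orderOf_eq_card_of_forall_mem_zpowers hz, Nat.card_units]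
    have : Module.Finite F K := Module.Finite.of_basis b
    rw [Module.natCard_eq_pow_finrank (K := F) (V := K), hfin]
  have hq : 2 ≤ Nat.card F := Finite.one_lt_card
  have hq0 : Nat.card F - 1 ≠ 0 := by omega
  have hdvd : Nat.card F - 1 ∣ Nat.card F ^ n - 1 := by
    have := Nat.sub_dvd_pow_sub_pow (Nat.card F) 1 n
    rwa [one_pow] at this
  set w : Kˣ := z ^ (Nat.card F - 1) with hw
  have hword : orderOf w = (Nat.card F ^ n - 1) / (Nat.card F - 1) := by
    rw [hw, orderOf_pow_of_dvd hq0 (by rw [hzord]; exact hdvd), hzord]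
  set G : Subgroup (GL (Fin n) F) := Subgroup.map (sing b) (Subgroup.zpowers w) with hGdef
  have hGcard : Nat.card G = (Nat.card F ^ n - 1) / (Nat.card F - 1) := by
    rw [hGdef, ← hword, ← Nat.card_zpowers]
    exact (Nat.card_congr ((Subgroup.zpowers w).equivMapOfInjective (sing b) (sing_inj b)).toEquiv).symm
  have hdet : ∀ g ∈ G, Matrix.det (g : Matrix (Fin n) (Fin n) F) = 1 := by
    rintro g ⟨x, hx, rfl⟩
    obtain ⟨k, rfl⟩ := hx
    have h1 : Algebra.norm F ((w : Kˣ) : K) = 1 := by
      rw [hw, Units.val_pow_eq_pow_val, map_pow, Nat.card_eq_fintype_card]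
      apply FiniteField.pow_card_sub_one_eq_one
      intro h0
      have := (Algebra.norm_eq_zero_iff (R := F) (S := K)).mp h0
      exact z.ne_zero this
    have h2 : (Units.map (Algebra.norm F : K →* F)) w = 1 := Units.ext h1
    have h3 : (Units.map (Algebra.norm F : K →* F)) (w ^ k) = 1 := by
      rw [map_zpow, h2, _root_.one_zpow]
    have h4 : Algebra.norm F ((w ^ k : Kˣ) : K) = 1 := congrArg Units.val h3
    rw [sing_coe, ← Algebra.norm_eq_matrix_det b]
    exact h4
  refine ⟨G, ?_, ?_, hGcard, hdet, ?_⟩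
  · apply criterion'
    intro v hv
    have hle : Nat.card G ≤ Nat.card (orb G v) := by
      apply Nat.card_le_card_of_injective (fun g : G => (⟨act g.1 v, g.1, g.2, rfl⟩ : orb G v))
      rintro ⟨g, x, hx, rfl⟩ ⟨g', x', hx', rfl⟩ h
      have h1 : act (sing b x) v = act (sing b x') v := congrArg Subtype.val h
      have h2 := sing_free b x x' hv h1
      subst h2
      rfl
    calc Nat.card F ^ n - 1 = (Nat.card F - 1) * ((Nat.card F ^ n - 1) / (Nat.card F - 1)) :=
          (Nat.mul_div_cancel' hdvd).symm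
      _ ≤ _ := by
          rw [← hGcard]
          exact Nat.mul_le_mul_left _ hle
  · exact isCyclic_of_surjective
      ((Subgroup.zpowers w).equivMapOfInjective (sing b) (sing_inj b)).toMonoidHom
      ((Subgroup.zpowers w).equivMapOfInjective (sing b) (sing_inj b)).surjective
  · apply not_sl hn
    rintro g ⟨x, _, rfl⟩ h ⟨y, _, rfl⟩
    rw [← map_mul, ← map_mul, mul_comm]

/-- Let `F` be a finite field with `q` elements.
(1) Let `G` be a subgroup of `GL(n, F)` such that `(q ^ r - 1) (q ^ (n - r) - 1) < (q - 1) |G v|`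
for all nonzero vectors `v` and all `0 < r < n`. Then `G` has the rank property.
(2) Every subgroup of `GL(n, F)` that acts transitively on the one-dimensional subspaces has the
rank property.
(3) For `n ≥ 2` there is a cyclic subgroup of order `(q ^ n - 1) / (q - 1)` with the rank property
which is contained in `SL(n, F)` and different from `SL(n, F)`. -/
theorem result (F : Type u) [Field F] [Finite F] (n : ℕ) :
    (∀ G : Subgroup (GL (Fin n) F),
      (∀ v : Fin n → F, v ≠ 0 → ∀ r : ℕ, 0 < r → r < n →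
        (Nat.card F ^ r - 1) * (Nat.card F ^ (n - r) - 1) <
          (Nat.card F - 1) * Nat.card (orb G v)) → RankProperty G) ∧
    (∀ G : Subgroup (GL (Fin n) F),
      (∀ v w : Fin n → F, v ≠ 0 → w ≠ 0 →
        ∃ g ∈ G, ∃ c : F, (g : Matrix (Fin n) (Fin n) F) *ᵥ v = c • w) → RankProperty G) ∧
    (2 ≤ n → ∃ G : Subgroup (GL (Fin n) F), RankProperty G ∧ IsCyclic G ∧
      Nat.card G = (Nat.card F ^ n - 1) / (Nat.card F - 1) ∧
      (∀ g ∈ G, Matrix.det (g : Matrix (Fin n) (Fin n) F) = 1) ∧
      ¬ ∀ g : GL (Fin n) F, Matrix.det (g : Matrix (Fin n) (Fin n) F) = 1 → g ∈ G) :=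
  ⟨fun G => criterion G, fun G => transitive_rank G, cyclic_example F n⟩

end Pool.Agent.Results.MP_6598fd_al.OrbitCriterion
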